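import Pool.Agent.K1H25.HF.Stm

/-!
MP_da1489_an: the decay of a nearly multiplicative family (piece HF-DECAY).
-/

namespace K1H52.HF

open Finset hiding mem_antidiagonal antidiagonal
open HasAntidiagonal K1H25.HF

theorem tot_add {n : ℕ} (a b : MI n) : tot (a + b) = tot a + tot b := by
  unfold tot
  simp [Finset.sum_add_distrib]

open Classical in
theorem t_DECAY (h1 : S_NETK) (h2 : S_KB) (h3 : S_LV) : S_DECAY := by
  intro n T M γ U Q X hn hT hγ hnT hfac hM hsmall h87 hQ hX0 hXQ hU0 hU hrel
  set C : ℝ := (Q * Real.exp γ) ^ (4 * M * T ^ 2) with hC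
  have hQe : 1 ≤ Q * Real.exp γ := by
    have : 1 ≤ Real.exp γ := Real.one_le_exp hγ.le
    nlinarith
  have hC0 : 0 < C := by positivity
  have hMr : (0 : ℝ) < M := by exact_mod_cast hM
  have hTpos : 0 < T := by omega
  have hTr : (0 : ℝ) < T := by exact_mod_cast hTpos
  have hkap0 : ∀ j l : MI n, 0 < kap j l := by
    intro j l
    unfold kap
    have := (h2 n hn).1
    exact div_pos (this _) (mul_pos (this _) (this _))
  suffices H : ∀ d : ℕ, ∀ k : MI n, tot k = d → X k ≤ C * Real.exp (-(3 / 4) * γ * (d : ℝ)) by
    intro k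
    exact H (tot k) k rfl
  intro d
  induction d using Nat.strong_induction_on with
  | _ d ih =>
    by_cases hd : d < 4 * M * T ^ 2
    · intro k hk
      have h4 := hXQ k
      rw [hk] at h4
      refine h4.trans ?_
      have h5 : (Q * Real.exp γ) ^ d ≤ C := pow_le_pow_right₀ hQe hd.le
      have h6 : (Q : ℝ) ^ d = (Q * Real.exp γ) ^ d * Real.exp (-(γ * d)) := by
        rw [mul_pow, ← Real.exp_nat_mul, mul_assoc, ← Real.exp_add]
        have : (d : ℝ) * γ + -(γ * d) = 0 := by ring
        rw [this]; simp
      rw [h6]
      refine mul_le_mul h5 (Real.exp_le_exp.2 ?_) (Real.exp_pos _).le hC0.le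
      have : 0 ≤ γ * (d : ℝ) := by positivity
      nlinarith
    · push Not at hd
      -- the maximum over the degree `d`
      set S : Finset (MI n) := (Fintype.piFinset fun _ => Finset.range (d + 1)).filter fun k => tot k = d
        with hS
      have hmem : ∀ k : MI n, tot k = d → k ∈ S := by
        intro k hk
        rw [hS, Finset.mem_filter]
        refine ⟨?_, hk⟩
        rw [Fintype.mem_piFinset]
        intro i
        rw [Finset.mem_range]
        have : k i ≤ tot k := Finset.single_le_sum (f := fun i => k i) (fun i _ => Nat.zero_le _)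
          (Finset.mem_univ i)
        omega
      intro k' hk'
      obtain ⟨k, hkS, hmax⟩ := S.exists_max_image X ⟨k', hmem k' hk'⟩
      refine (hmax k' (hmem k' hk')).trans ?_
      have hkd : tot k = d := (Finset.mem_filter.1 hkS).2
      have hmax' : ∀ k'' : MI n, tot k'' = d → X k'' ≤ X k := fun k'' h => hmax k'' (hmem k'' h)
      obtain ⟨hb, hle, hlow, hoth⟩ := h1 n T M k hn hT hfac hM (by rw [hkd]; exact hd)
      set b := dir T k with hbdef
      set l := lv M b with hl
      set j := k - l with hj
      have hjl : j + l = k := by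
        funext i
        have := hle i
        simp only [hj, Pi.add_apply, Pi.sub_apply]
        omega
      have htl : tot l = M := (h3 n T M b hn hT hfac hb).1
      have htj : tot j + M = d := by
        rw [← hkd, ← hjl, tot_add, htl]
      have hr := hrel j b hb
      rw [← hl, hjl] at hr
      have hXk := hX0 k
      have hsum : ∑ b' ∈ (Net n T).filter (fun b' => SameCol b' b ∧ b' ≠ b),
          kap j (lv M b') * X (j + lv M b') ≤ 1 / 8 * (kap j l * X k) := by
        calc ∑ b' ∈ (Net n T).filter (fun b' => SameCol b' b ∧ b' ≠ b), kap j (lv M b') * X (j + lv M b')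
            ≤ ∑ b' ∈ (Net n T).filter (fun b' => SameCol b' b ∧ b' ≠ b),
                Real.exp (-(M : ℝ) / (T : ℝ) ^ 2) * (kap j l * X k) := by
              refine Finset.sum_le_sum fun b' hb' => ?_
              rw [Finset.mem_filter] at hb'
              obtain ⟨hb'1, hb'2, hb'3⟩ := hb'
              have h7 := hoth b' hb'1 hb'2 hb'3
              have h8 : X (j + lv M b') ≤ X k := hmax' _ (by
                rw [tot_add, (h3 n T M b' hn hT hfac hb'1).1]; exact htj)
              rw [← mul_assoc]
              exact mul_le_mul h7 h8 (hX0 _) (by have := hkap0 j l; positivity)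
          _ = (((Net n T).filter (fun b' => SameCol b' b ∧ b' ≠ b)).card : ℝ) *
                (Real.exp (-(M : ℝ) / (T : ℝ) ^ 2) * (kap j l * X k)) := by
              rw [Finset.sum_const, nsmul_eq_mul]
          _ ≤ ((T : ℝ) + 1) ^ n * (Real.exp (-(M : ℝ) / (T : ℝ) ^ 2) * (kap j l * X k)) := by
              refine mul_le_mul_of_nonneg_right ?_ (by have := hkap0 j l; positivity)
              have h9 : ((Net n T).filter (fun b' => SameCol b' b ∧ b' ≠ b)).card ≤ (T + 1) ^ n := by
                refine (Finset.card_filter_le _ _).trans ?_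
                unfold Net
                refine (Finset.card_filter_le _ _).trans ?_
                rw [Fintype.card_piFinset]
                simp
              calc (((Net n T).filter (fun b' => SameCol b' b ∧ b' ≠ b)).card : ℝ)
                  ≤ (((T + 1) ^ n : ℕ) : ℝ) := by exact_mod_cast h9
                _ = ((T : ℝ) + 1) ^ n := by push_cast; ring
          _ = (((T : ℝ) + 1) ^ n * Real.exp (-(M : ℝ) / (T : ℝ) ^ 2)) * (kap j l * X k) := by ring
          _ ≤ 1 / 8 * (kap j l * X k) :=
              mul_le_mul_of_nonneg_right hsmall (mul_nonneg (hkap0 j l).le hXk)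
      have hr2 : kap j l * X k ≤ 8 / 7 * (X j * U) := by linarith
      have hih : X j ≤ C * Real.exp (-(3 / 4) * γ * ((tot j : ℕ) : ℝ)) := ih (tot j) (by omega) j rfl
      have htjr : ((tot j : ℕ) : ℝ) = (d : ℝ) - M := by
        have : ((tot j : ℕ) : ℝ) + M = d := by exact_mod_cast htj
        linarith
      rw [htjr] at hih
      -- lower bound for kap
      have hklow : Real.exp (-(γ * M / 16)) ≤ kap j l := by
        refine le_trans (Real.exp_le_exp.2 ?_) hlow
        rw [neg_mul, neg_mul, neg_div, neg_le_neg_iff]
        rw [div_le_div_iff₀ (by positivity) (by norm_num)]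
        have : 41 * (n : ℝ) ^ 2 * 16 * M ≤ γ * (T : ℝ) ^ 2 * M :=
          mul_le_mul_of_nonneg_right (by linarith) hMr.le
        nlinarith
      have h10 : Real.exp (-(γ * M / 16)) * X k ≤ Real.exp (γ * M / 16) *
          ((C * Real.exp (-(3 / 4) * γ * ((d : ℝ) - M))) * Real.exp (-(7 / 8) * γ * M)) := by
        calc Real.exp (-(γ * M / 16)) * X k ≤ kap j l * X k := mul_le_mul_of_nonneg_right hklow hXk
          _ ≤ 8 / 7 * (X j * U) := hr2
          _ ≤ _ := by
            refine mul_le_mul h87 ?_ (mul_nonneg (hX0 j) hU0) (Real.exp_pos _).le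
            exact mul_le_mul hih hU hU0 (by positivity)
      have h11 : X k = Real.exp (γ * M / 16) * (Real.exp (-(γ * M / 16)) * X k) := by
        rw [← mul_assoc, ← Real.exp_add]
        have : γ * (M : ℝ) / 16 + -(γ * M / 16) = 0 := by ring
        rw [this]; simp
      rw [h11]
      refine (mul_le_mul_of_nonneg_left h10 (Real.exp_pos _).le).trans (le_of_eq ?_)
      have e1 : Real.exp (γ * M / 16) * (Real.exp (γ * M / 16) *
          ((C * Real.exp (-(3 / 4) * γ * ((d : ℝ) - M))) * Real.exp (-(7 / 8) * γ * M)))
          = C * (Real.exp (γ * M / 16) * Real.exp (γ * M / 16) *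
            Real.exp (-(3 / 4) * γ * ((d : ℝ) - M)) * Real.exp (-(7 / 8) * γ * M)) := by ring
      rw [e1, ← Real.exp_add, ← Real.exp_add, ← Real.exp_add]
      congr 2
      ring

end K1H52.HF
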