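import Pool.Agent.K1H25.HF.Stm

/-!
MP_da1489_an: comparison of the two weights (piece HF-WW).
-/

namespace K1H52.HF

open Finset hiding mem_antidiagonal antidiagonal
open HasAntidiagonal K1H25.HF

theorem Wt_nonneg {n : ℕ} (k : MI n) : 0 ≤ Wt k := by
  unfold Wt
  exact Finset.prod_nonneg fun i _ => Real.rpow_nonneg (by positivity) _

theorem Wt_sq {n : ℕ} (k : MI n) : Wt k ^ 2 = (∏ i, (k i : ℝ) ^ (k i)) / (tot k : ℝ) ^ (tot k) := by
  unfold Wt
  rw [← Finset.prod_pow]
  have h : ∀ i, (((k i : ℝ) / (tot k : ℝ)) ^ ((k i : ℝ) / 2)) ^ 2 = ((k i : ℝ) / (tot k : ℝ)) ^ (k i) := by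
    intro i
    rw [← Real.rpow_natCast, ← Real.rpow_mul (by positivity)]
    rw [← Real.rpow_natCast]
    congr 1
    push_cast
    ring
  rw [Finset.prod_congr rfl fun i _ => h i]
  simp only [div_pow]
  rw [Finset.prod_div_distrib]
  congr 1
  rw [Finset.prod_pow_eq_pow_sum]
  rfl

theorem wq_sq {n : ℕ} (k : MI n) : wq k ^ 2 = ((∏ i, ((k i).factorial : ℝ))) / ((tot k).factorial : ℝ) := by
  unfold wq
  rw [Real.sq_sqrt (by positivity)]
  push_cast
  rfl

theorem multinomial_le {n : ℕ} (k : MI n) :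
    ((tot k).factorial : ℝ) * (∏ i, (k i : ℝ) ^ (k i)) ≤ (∏ i, ((k i).factorial : ℝ)) * (tot k : ℝ) ^ (tot k) := by
  have h1 := Finset.sum_pow_eq_sum_piAntidiag (R := ℝ) Finset.univ (fun i => (k i : ℝ)) (tot k)
  have h2 : (Nat.multinomial Finset.univ k : ℝ) * ∏ i, (k i : ℝ) ^ (k i) ≤ (tot k : ℝ) ^ tot k := by
    have h3 : (tot k : ℝ) = ∑ i, (k i : ℝ) := by unfold tot; push_cast; rfl
    calc (Nat.multinomial Finset.univ k : ℝ) * ∏ i, (k i : ℝ) ^ (k i)
        ≤ ∑ k' ∈ Finset.piAntidiag Finset.univ (tot k), (Nat.multinomial Finset.univ k' : ℝ) *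
            ∏ i, (k i : ℝ) ^ (k' i) := by
          refine Finset.single_le_sum (f := fun k' : Fin n → ℕ => (Nat.multinomial Finset.univ k' : ℝ) *
            ∏ i, (k i : ℝ) ^ (k' i)) (fun k' _ => by positivity) ?_
          rw [Finset.mem_piAntidiag]
          exact ⟨rfl, fun i _ => Finset.mem_univ i⟩
      _ = (∑ i, (k i : ℝ)) ^ tot k := h1.symm
      _ = (tot k : ℝ) ^ tot k := by rw [← h3]
  have h4 : (∏ i, ((k i).factorial : ℝ)) * (Nat.multinomial Finset.univ k : ℝ) = ((tot k).factorial : ℝ) := by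
    have := Nat.multinomial_spec Finset.univ k
    exact_mod_cast this
  rw [← h4, mul_assoc]
  exact mul_le_mul_of_nonneg_left h2 (by positivity)

theorem fact_lower (m : ℕ) : (m : ℝ) ^ m ≤ (m.factorial : ℝ) * Real.exp m := by
  have := Real.pow_div_factorial_le_exp (m : ℝ) (by positivity) m
  rw [div_le_iff₀ (by positivity)] at this
  linarith

theorem fact_upper1 (m : ℕ) (hm : 1 ≤ m) :
    (m.factorial : ℝ) * Real.exp m ≤ Real.exp 1 * m * (m : ℝ) ^ m := by
  induction m, hm using Nat.le_induction with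
  | base => simp
  | succ m hm ih =>
    have hm0 : (0 : ℝ) < m := by exact_mod_cast hm
    have h1 : Real.exp 1 * (m : ℝ) ^ (m + 1) ≤ ((m : ℝ) + 1) ^ (m + 1) := by
      have h2 : (1 : ℝ) / (m + 1) ≤ Real.log (((m : ℝ) + 1) / m) := by
        have := Real.one_sub_inv_le_log_of_pos (x := ((m : ℝ) + 1) / m) (by positivity)
        have e : 1 - (((m : ℝ) + 1) / m)⁻¹ = 1 / (m + 1) := by
          rw [inv_div]
          field_simp
          ring
        rw [e] at this
        exact this
      have h3 : (1 : ℝ) ≤ ((m + 1 : ℕ) : ℝ) * Real.log (((m : ℝ) + 1) / m) := by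
        push_cast
        rw [div_le_iff₀ (by positivity)] at h2
        linarith
      have h4 : Real.exp 1 ≤ (((m : ℝ) + 1) / m) ^ (m + 1) := by
        rw [← Real.exp_log (show 0 < (((m : ℝ) + 1) / m) ^ (m + 1) by positivity), Real.log_pow]
        exact Real.exp_le_exp.2 h3
      rw [div_pow, le_div_iff₀ (by positivity)] at h4
      exact h4
    rw [Nat.factorial_succ]
    push_cast
    rw [Real.exp_add]
    calc ((m : ℝ) + 1) * (m.factorial : ℝ) * (Real.exp m * Real.exp 1)
        = ((m : ℝ) + 1) * Real.exp 1 * ((m.factorial : ℝ) * Real.exp m) := by ring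
      _ ≤ ((m : ℝ) + 1) * Real.exp 1 * (Real.exp 1 * m * (m : ℝ) ^ m) :=
          mul_le_mul_of_nonneg_left ih (by positivity)
      _ = ((m : ℝ) + 1) * Real.exp 1 * (Real.exp 1 * (m : ℝ) ^ (m + 1)) := by ring
      _ ≤ ((m : ℝ) + 1) * Real.exp 1 * (((m : ℝ) + 1) ^ (m + 1)) :=
          mul_le_mul_of_nonneg_left h1 (by positivity)
      _ = _ := by ring

theorem fact_upper (m : ℕ) :
    (m.factorial : ℝ) * Real.exp m ≤ 3 * ((m : ℝ) + 1) * (m : ℝ) ^ m := by
  have he : Real.exp 1 ≤ 3 := by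
    have := Real.exp_one_lt_d9
    linarith
  rcases Nat.eq_zero_or_pos m with rfl | hm
  · simp
  · refine (fact_upper1 m hm).trans ?_
    have : (0 : ℝ) ≤ (m : ℝ) ^ m := by positivity
    have h2 : Real.exp 1 * (m : ℝ) ≤ 3 * ((m : ℝ) + 1) := by
      have : (0 : ℝ) ≤ m := by positivity
      nlinarith [Real.exp_pos 1]
    exact mul_le_mul_of_nonneg_right h2 this

theorem t_WW : S_WW := by
  intro n k
  have hK : (0 : ℝ) < (tot k : ℝ) ^ tot k := by
    rcases Nat.eq_zero_or_pos (tot k) with h | h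
    · rw [h]; simp
    · have : (0 : ℝ) < tot k := by exact_mod_cast h
      positivity
  constructor
  · refine le_of_sq_le_sq ?_ (wq_pos k).le
    rw [Wt_sq, wq_sq, div_le_div_iff₀ hK (by positivity)]
    have := multinomial_le k
    linarith
  · refine le_of_sq_le_sq ?_ (mul_nonneg (by positivity) (Wt_nonneg k))
    rw [mul_pow, Wt_sq, wq_sq]
    rw [← mul_div_assoc, div_le_div_iff₀ (by positivity) hK]
    set P : ℝ := ∏ i, (k i : ℝ) ^ (k i) with hP
    have hP0 : 0 ≤ P := Finset.prod_nonneg fun i _ => by positivity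
    have h1 : (∏ i, ((k i).factorial : ℝ)) * Real.exp (tot k) ≤ (3 * ((tot k : ℝ) + 1)) ^ n * P := by
      have e1 : Real.exp (tot k) = ∏ i, Real.exp (k i) := by
        rw [← Real.exp_sum]
        congr 1
        unfold tot; push_cast; rfl
      rw [e1, ← Finset.prod_mul_distrib]
      calc ∏ i, (((k i).factorial : ℝ) * Real.exp (k i))
          ≤ ∏ i, (3 * ((tot k : ℝ) + 1) * (k i : ℝ) ^ (k i)) := by
            refine Finset.prod_le_prod (fun i _ => by positivity) fun i _ => ?_
            refine (fact_upper (k i)).trans ?_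
            refine mul_le_mul_of_nonneg_right ?_ (by positivity)
            have : (k i : ℝ) ≤ tot k := by
              have : k i ≤ tot k := Finset.single_le_sum (f := fun i => k i) (fun i _ => Nat.zero_le _)
                (Finset.mem_univ i)
              exact_mod_cast this
            linarith
        _ = (3 * ((tot k : ℝ) + 1)) ^ n * P := by
            rw [Finset.prod_mul_distrib]
            simp [hP]
    have h2 := fact_lower (tot k)
    have h3 : (1 : ℝ) ≤ 3 * ((tot k : ℝ) + 1) := by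
      have : (0 : ℝ) ≤ tot k := by positivity
      linarith
    have h4 : (1 : ℝ) ≤ (3 * ((tot k : ℝ) + 1)) ^ n := one_le_pow₀ h3
    have hF : (0 : ℝ) ≤ ∏ i, ((k i).factorial : ℝ) := by positivity
    calc (∏ i, ((k i).factorial : ℝ)) * (tot k : ℝ) ^ tot k
        ≤ (∏ i, ((k i).factorial : ℝ)) * (((tot k).factorial : ℝ) * Real.exp (tot k)) :=
          mul_le_mul_of_nonneg_left h2 hF
      _ = ((∏ i, ((k i).factorial : ℝ)) * Real.exp (tot k)) * ((tot k).factorial : ℝ) := by ring
      _ ≤ ((3 * ((tot k : ℝ) + 1)) ^ n * P) * ((tot k).factorial : ℝ) :=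
          mul_le_mul_of_nonneg_right h1 (by positivity)
      _ ≤ (((3 * ((tot k : ℝ) + 1)) ^ n) ^ 2 * P) * ((tot k).factorial : ℝ) := by
          refine mul_le_mul_of_nonneg_right (mul_le_mul_of_nonneg_right ?_ hP0) (by positivity)
          nlinarith
      _ = _ := by ring

end K1H52.HF
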